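import Pool.Agent.E8helper32.SA.Fin
import Pool.Agent.E8helper4.AB.Five
import Pool.Agent.E8helper32.SB.Fin

/-!
# Schiffer's conjecture for domains with algebraic boundary

Let `Ω = φ(D)`, where `φ` is holomorphic and injective in a disc `|w| < r`, `r > 1`, and `D` is the
open unit disc (by a theorem of Williams every domain on which problem (S) has a solution is of this
kind). Suppose that (S) has a nontrivial solution on `Ω`, and that the boundary of `Ω` is algebraic
in the following sense: `∑ c k z * conj z ^ k = 0`, `k ≤ d`, on the boundary, where the coefficients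
are holomorphic near the closure of `Ω` (for example, polynomials: the boundary is then contained in
a real algebraic curve), and `c d ≠ 0` somewhere in `Ω`.

Then `Ω` is a disc, or the complexified curve `∑ c k z * X ^ k = 0` has a cusp at infinity over `Ω`,
`z = z0 + t ^ q`, `X = E t / t ^ q`, `q ≥ 2`, `z0` in `Ω`, such that the exponent `n` of the first
nonvanishing term of the power series of `E` that is not divisible by `q` satisfies `n > 2 q`, and
there is a coincidence of zeros of Bessel functions: `J_1 (x) = J_{-n / q} (x) = 0` for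
`x ^ 2 = lam * E 0`. No such coincidence is known for integers `q ≥ 2` and `n` not divisible by `q`.

So `Ω` is a disc if the curve has no such cusp, in particular if it is smooth at its points at
infinity over `Ω`, or if the boundary is contained in a real algebraic curve of degree at most five
(for these a cusp has `q = 2` and, by the genus formula, `n ≤ 3`; the Lean proof of this last part is
by another argument).

The proof: if `Ω` is not a disc, then `φ` is not entire by `BranchSingularities`. At a singularity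
of a branch the Schwarz function is, in the coordinate `z = z0 + exp σ`, a function
`E (exp (σ / q)) * exp (-μ σ)`; the identities for all branches, for open paths, exclude `μ ≠ 1`, and
give `J_1 = 0` and, in the next order, `J_{-n / q} = 0`. That `J_1` and `J_{-ν}` have no common zero
for `0 < ν < 2`, `ν ≠ 1`, is shown by counting zeros (Sturm's comparison theorem) for the orders
`μ`, `1`, `μ + 1`, `0 < μ < 1`, which gives `J_μ J_{μ + 1} < 0` at the zeros of `J_1`, and by the
recurrence formula.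
-/

set_option autoImplicit false

open MeasureTheory Metric Set Filter Topology ComplexConjugate

namespace Pool.Agent.Results.MP_83fd13_an.AlgebraicBoundariesH32

/-- The overdetermined problem (S) in the plane `ℂ`: `-Δu = lam u` in `Ω`, `∂u/∂n = 0` on `∂Ω`,
`u = c` on `∂Ω` has a nontrivial weak solution `u` for some real constant `c`; `G` is the weak
gradient of `u`, and both boundary conditions are expressed by testing with functions that need not
vanish on `∂Ω`. -/
def Solvable (Ω : Set ℂ) (lam : ℝ) : Prop :=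
  ∃ (c : ℝ) (u : ℂ → ℝ) (G : ℂ → ℂ),
    MemLp u 2 (volume.restrict Ω) ∧ MemLp G 2 (volume.restrict Ω) ∧
    (∀ φ : ℂ → ℝ, ContDiff ℝ 1 φ → HasCompactSupport φ → ∀ v : ℂ,
      ∫ x in Ω, (u x - c) * (fderiv ℝ φ x v) = - ∫ x in Ω, @inner ℝ ℂ _ (G x) v * φ x) ∧
    (∀ φ : ℂ → ℝ, ContDiff ℝ 1 φ → HasCompactSupport φ →
      ∫ x in Ω, fderiv ℝ φ x (G x) = lam * ∫ x in Ω, u x * φ x) ∧
    ¬ (u =ᵐ[volume.restrict Ω] 0)

/-- `Ω` is an open disc -/
def IsDisc (Ω : Set ℂ) : Prop := ∃ (p : ℂ) (r0 : ℝ), 0 < r0 ∧ Ω = ball p r0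

/-- The function `0F1 (; ν + 1; -κ) = ∑ (-κ) ^ k / (k! (ν + 1) (ν + 2) ⋯ (ν + k))`; up to the nonzero
factor `Γ (ν + 1) κ ^ (-ν / 2)` it is the Bessel function `J_ν (2 √κ)`. -/
noncomputable def BesselF (ν : ℝ) (κ : ℂ) : ℂ :=
  ∑' k : ℕ, (-κ) ^ k / ((k.factorial : ℂ) * ∏ j ∈ Finset.range k, ((ν : ℂ) + j + 1))

/-- The curve `∑ c k z * X ^ k = 0`, `k ≤ d`, has over a point `z0` of `Ω` a branch `z = z0 + t ^ q`,
`X = E t / t ^ q`, `q ≥ 2`, parametrized injectively, `E 0 ≠ 0`, with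
`E t - E (exp (2πi/q) t) = t ^ n * D t`, `D 0 ≠ 0`, where `q` does not divide `n` and `n > 2 q`, and
the number `κ = lam * E 0 / 4` is a common zero of `κ ↦ J_1 (2 √κ) / √κ` and of
`κ ↦ κ ^ (n / 2q) J_{-n / q} (2 √κ)`. -/
def BesselCusp (Ω : Set ℂ) (d : ℕ) (c : ℕ → ℂ → ℂ) (lam : ℝ) : Prop :=
  ∃ (z0 : ℂ) (q n : ℕ) (δ : ℝ) (E D : ℂ → ℂ), z0 ∈ Ω ∧ 2 ≤ q ∧ ¬ q ∣ n ∧ 2 * q < n ∧ 0 < δ ∧
    DifferentiableOn ℂ E (ball 0 δ) ∧ DifferentiableOn ℂ D (ball 0 δ) ∧ E 0 ≠ 0 ∧ D 0 ≠ 0 ∧
    (∀ t ∈ ball (0 : ℂ) δ, z0 + t ^ q ∈ Ω) ∧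
    (∀ t ∈ ball (0 : ℂ) δ, t ≠ 0 →
      ∑ k ∈ Finset.range (d + 1), c k (z0 + t ^ q) * (E t / t ^ q) ^ k = 0) ∧
    (∀ t ∈ ball (0 : ℂ) δ, ∀ t' ∈ ball (0 : ℂ) δ, t ≠ 0 → t' ≠ 0 →
      t ^ q = t' ^ q → E t / t ^ q = E t' / t' ^ q → t = t') ∧
    (∀ t ∈ ball (0 : ℂ) δ, E t - E (Complex.exp (2 * Real.pi * Complex.I / q) * t) =
      t ^ n * D t) ∧
    BesselF 1 (lam / 4 * E 0) = 0 ∧ BesselF (-(n / q)) (lam / 4 * E 0) = 0

/-- Let `φ` be holomorphic and injective in `|w| < r`, where `r > 1`, let (S) have a nontrivial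
solution on `Ω = φ(D)` for some `lam > 0`, and let the boundary of `Ω` satisfy the equation
`∑ c k z * conj z ^ k = 0`, `k ≤ d`, whose coefficients are holomorphic in `φ(|w| < r)`, `c d` not
identically `0`. Then `Ω` is a disc or the complexified curve has a cusp at infinity over `Ω` with
`n > 2 q`, whose leading coefficient gives a common zero of the Bessel functions `J_1` and
`J_{-n / q}`.

Hence `Ω` is a disc if at each point of `Ω` one of `c d`, `c (d - 1)`, `(c d)'` is not `0`, i.e. if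
the complexified curve is smooth at infinity over `Ω`; and `Ω` is a disc if its boundary is contained
in a real algebraic curve of degree at most five. -/
theorem result (φ : ℂ → ℂ) (r : ℝ) (hr : 1 < r) (hφ : DifferentiableOn ℂ φ (ball 0 r))
    (hinj : InjOn φ (ball 0 r)) (lam : ℝ) (hlam : 0 < lam) (hS : Solvable (φ '' ball 0 1) lam) :
    (∀ (d : ℕ) (c : ℕ → ℂ → ℂ), (∀ k ≤ d, DifferentiableOn ℂ (c k) (φ '' ball 0 r)) →
      (∃ z ∈ φ '' ball 0 1, c d z ≠ 0) →
      (∀ z ∈ φ '' sphere 0 1, ∑ k ∈ Finset.range (d + 1), c k z * conj z ^ k = 0) →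
      (IsDisc (φ '' ball 0 1) ∨ BesselCusp (φ '' ball 0 1) d c lam) ∧
      ((∀ z ∈ φ '' ball 0 1, c d z ≠ 0 ∨ c (d - 1) z ≠ 0 ∨ deriv (c d) z ≠ 0) →
        IsDisc (φ '' ball 0 1))) ∧
    (∀ P : MvPolynomial (Fin 2) ℝ, P ≠ 0 → P.totalDegree ≤ 5 →
      (∀ z ∈ frontier (φ '' ball 0 1), MvPolynomial.eval ![z.re, z.im] P = 0) →
      IsDisc (φ '' ball 0 1)) := by
  refine ⟨?_, fun P hP hdeg hb =>
    Pool.Agent.E8helper4.AB.partC φ r lam hr hφ hinj hlam hS P hP hdeg hb⟩
  intro d c hc hcd hrel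
  have hD : Pool.Agent.E8helper32.SA.Data φ r d c := ⟨hr, hφ, hinj, hc, hrel, hcd⟩
  have h := Pool.Agent.E8helper32.SA.disc_or_coin hD hlam hS
  refine ⟨h.imp id ?_, fun hsm => h.resolve_right fun h1 =>
    Pool.Agent.E8helper32.SA.no_cusp hD hsm (Pool.Agent.E8helper32.SA.cusp_of_coin h1)⟩
  rintro ⟨z0, q, n, δ, E, D, h1, h2, h3, h4, h5, h6, h7, h8, h9, h10, h11, h12, h13, h14⟩
  refine ⟨z0, q, n, δ, E, D, h1, h2, h3, ?_, h4, h5, h6, h7, h8, h9, h10, h11, h12, h13, h14⟩
  by_contra hcon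
  push Not at hcon
  have hq : (0 : ℝ) < q := by
    have : 0 < q := by omega
    exact_mod_cast this
  have hn0 : 0 < n := by
    rcases Nat.eq_zero_or_pos n with h | h
    · exact absurd (h ▸ dvd_zero q) h3
    · exact h
  have hn0' : (0 : ℝ) < n := by exact_mod_cast hn0
  have hn2 : n ≠ 2 * q := fun h => h3 ⟨2, by rw [h, mul_comm]⟩
  have hn1 : n ≠ q := fun h => h3 ⟨1, by rw [h, mul_one]⟩
  refine Pool.Agent.E8helper32.SB.besselNC h13 (ν := (n : ℝ) / q) (by positivity) ?_ ?_ h14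
  · rw [div_lt_iff₀ hq]
    exact_mod_cast lt_of_le_of_ne hcon hn2
  · rw [ne_eq, div_eq_one_iff_eq hq.ne']
    exact_mod_cast hn1

end Pool.Agent.Results.MP_83fd13_an.AlgebraicBoundariesH32
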