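import Pool.Agent.E8helper32.SQ.Fin2
import Pool.Agent.E8helper36.SQ.Icc
import Pool.Agent.E8helper63.SQ.Coord2
import Pool.Agent.E8helper63.SQ.Dich
import Pool.Agent.E8helper66.SQ.Punc
import Pool.Agent.E8helper50.SQ.Grow

/-!
# Schiffer's conjecture when a function of the Riemann map is meromorphic in the plane

Let `Ω = φ(D)`, where `φ` is holomorphic and injective in a disc `|w| < r`, `r > 1`, and `D` is the
open unit disc. Suppose that (S) has a nontrivial solution on `Ω`. We prove that `Ω` is a disc if
`ψ ∘ φ = χ` near a point of `|w| < r`, where `χ` is meromorphic in the plane and not constant and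
`ψ` is any function which is holomorphic off a closed countable set (unbounded near each of the
points of this set) and has at most countably many singular values in the plane (a value `s` is
regular if all the germs of inverse functions of `ψ` at points of some disc around `s` extend to
this disc). For example `ψ` may be a polynomial, a rational function, `exp`, `sin`, `z exp z`,
`∫ exp (-t²)`, `℘`, or any other function, entire or meromorphic in the plane, for which the
closure of the set of the critical values and the asymptotic values is countable; so in this case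
`P(φ)`, or `exp φ`, or `℘(φ)`, ..., is meromorphic in the plane. This includes, with `χ` a finite
Blaschke product, all simply connected domains that are components of `{|P| < 1}`, `P` a
polynomial (lemniscates), or of `{|ψ| < 1}` with a function `ψ` as above, if the component is
relatively compact in the domain of `ψ` (by Williams's theorem the Riemann map extends to a
larger disc if (S) has a nontrivial solution).

Locally: let `Ω` not be a disc, let `B` be an open disc in `|w| > 1`, and let `g` be a branch of the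
continuation of `φ` at a point `z` of `B`. If `ψ ∘ g = χ` near `z`, where `χ` is meromorphic in `B`,
not constant, and `ψ` is as above, then `g` itself extends holomorphically to `B`.

The starting result `BranchSingularities` says that a branch has no isolated singularity. Here the
branches can have infinitely many values near a singular point.

The proof: by induction (Cantor and Bendixson) one considers an isolated singular point `w1`. In the
coordinate `w = w1 + exp τ` the branch is a function `G` on a half-plane. In a coordinate in which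
`χ` is a power, `G` is either injective, and then of slow growth by Koebe's theorem (which is
excluded by `BranchesBlowUp` of the starting result), or a function of a root of the local
parameter, injective in a punctured disc, so that it has at most a pole, of an order which is
excluded by slow growth, by `BranchSingularities` (if `G` is single-valued), or by the identities for
the branches.
-/

set_option autoImplicit false

open MeasureTheory Metric Set Filter Topology ComplexConjugate

namespace Pool.Agent.Results.MP_83fd13_an.FunctionalRelationsH32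

/-- The overdetermined problem (S) in the plane `ℂ`: `-Δu = lam u` in `Ω`, `∂u/∂n = 0` on `∂Ω`,
`u = c` on `∂Ω` has a nontrivial weak solution `u` for some real constant `c`; `G` is the weak
gradient of `u`, and both boundary conditions are expressed by testing with functions that need not
vanish on `∂Ω`. -/
def Solvable (Ω : Set ℂ) (lam : ℝ) : Prop :=
  ∃ (c : ℝ) (u : ℂ → ℝ) (G : ℂ → ℂ),
    MemLp u 2 (volume.restrict Ω) ∧ MemLp G 2 (volume.restrict Ω) ∧
    (∀ φ : ℂ → ℝ, ContDiff ℝ 1 φ → HasCompactSupport φ → ∀ v : ℂ,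
      ∫ x in Ω, (u x - c) * (fderiv ℝ φ x v) = - ∫ x in Ω, @inner ℝ ℂ _ (G x) v * φ x) ∧
    (∀ φ : ℂ → ℝ, ContDiff ℝ 1 φ → HasCompactSupport φ →
      ∫ x in Ω, fderiv ℝ φ x (G x) = lam * ∫ x in Ω, u x * φ x) ∧
    ¬ (u =ᵐ[volume.restrict Ω] 0)

/-- `Ω` is an open disc -/
def IsDisc (Ω : Set ℂ) : Prop := ∃ (p : ℂ) (r0 : ℝ), 0 < r0 ∧ Ω = ball p r0

/-- The germs obtained from `φ` by analytic continuation along chains of discs in `|w| > 1`:
`Branch φ r z f` means that `f` near `z` is such a continuation of `φ`, which is given in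
`|w| < r`. -/
inductive Branch (φ : ℂ → ℂ) (r : ℝ) : ℂ → (ℂ → ℂ) → Prop
  | base (z : ℂ) (h1 : 1 < ‖z‖) (h2 : ‖z‖ < r) : Branch φ r z φ
  | step (z z' c : ℂ) (ρ : ℝ) (f g : ℂ → ℂ) (h : Branch φ r z f)
      (hB : ∀ w ∈ ball c ρ, 1 < ‖w‖) (hg : DifferentiableOn ℂ g (ball c ρ))
      (hz : z ∈ ball c ρ) (hz' : z' ∈ ball c ρ) (hfg : f =ᶠ[𝓝 z] g) : Branch φ r z' g

/-- `s` is a regular value of `ψ`, which is defined in `V`: there is a disc around `s` such that all
germs, at points of the disc, of functions `g` with values in `V` and `ψ (g w) = w` extend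
holomorphically to the disc. The other values are the singular values. -/
def RegularValue (V : Set ℂ) (ψ : ℂ → ℂ) (s : ℂ) : Prop :=
  ∃ δ : ℝ, 0 < δ ∧ ∀ z ∈ ball s δ, ∀ g : ℂ → ℂ,
    (∀ᶠ w in 𝓝 z, DifferentiableAt ℂ g w ∧ g w ∈ V ∧ ψ (g w) = w) →
    ∃ E : ℂ → ℂ, DifferentiableOn ℂ E (ball s δ) ∧ E =ᶠ[𝓝 z] g

/-- `ψ` is holomorphic in `V`, the complement of a closed countable set, and unbounded near each
point of this closed set; at most countably many complex numbers are singular values of `ψ`. -/
structure CountablySingular (V : Set ℂ) (ψ : ℂ → ℂ) : Prop where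
  isOpen : IsOpen V
  countable : Vᶜ.Countable
  differentiableOn : DifferentiableOn ℂ ψ V
  unbounded : ∀ p, p ∉ V → ∀ ε : ℝ, 0 < ε → ∀ C : ℝ, ∃ z ∈ ball p ε, z ∈ V ∧ C < ‖ψ z‖
  singular : {s | ¬ RegularValue V ψ s}.Countable

/-- The local statement: let the open disc `B = {|w - c| < ρ}` lie in `|w| > 1`, let `g` be a
branch of `φ` at a point `z` of `B` such that `ψ (g w) = χ w` for `w` near `z`, where `χ` is
meromorphic in `B` and not constant near `z` and `ψ` has at most countably many singular values.
Then `g` extends holomorphically to `B`. -/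
def RelatedBranchesExtend (φ : ℂ → ℂ) (r : ℝ) : Prop :=
  ∀ (c : ℂ) (ρ : ℝ) (V : Set ℂ) (ψ χ : ℂ → ℂ) (z : ℂ) (g : ℂ → ℂ), (∀ w ∈ ball c ρ, 1 < ‖w‖) →
    CountablySingular V ψ → MeromorphicOn χ (ball c ρ) → z ∈ ball c ρ → Branch φ r z g →
    (¬ ∃ a, ∀ᶠ w in 𝓝[≠] z, χ w = a) → (∀ᶠ w in 𝓝 z, g w ∈ V ∧ ψ (g w) = χ w) →
    ∃ E : ℂ → ℂ, DifferentiableOn ℂ E (ball c ρ) ∧ E =ᶠ[𝓝 z] g

theorem branch_to {φ : ℂ → ℂ} {r : ℝ} {z : ℂ} {f : ℂ → ℂ} (h : Branch φ r z f) :
    BranchSingularities.Branch φ r z f := by
  induction h with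
  | base z h1 h2 => exact BranchSingularities.Branch.base z h1 h2
  | step z z' c ρ f g _ hB hg hz hz' hfg ih =>
    exact BranchSingularities.Branch.step z z' c ρ f g ih hB hg hz hz' hfg

/-- branches are not constant -/
theorem branch_nc {φ : ℂ → ℂ} {r : ℝ} (hD : Pool.Agent.E8helper32.SL.D0 φ r) {z : ℂ} {f : ℂ → ℂ}
    (h : Branch φ r z f) : (∀ᶠ w in 𝓝 z, DifferentiableAt ℂ f w) ∧
      ∃ᶠ w in 𝓝 z, deriv f w ≠ 0 := by
  induction h with
  | base z h1 h2 =>
    have hz : z ∈ ball (0 : ℂ) r := mem_ball_zero_iff.2 h2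
    refine ⟨?_, Eventually.frequently ?_⟩
    · filter_upwards [isOpen_ball.mem_nhds hz] with w hw
      exact hD.hφ.differentiableAt (isOpen_ball.mem_nhds hw)
    · filter_upwards [isOpen_ball.mem_nhds hz] with w hw
      exact Pool.Agent.E8helper32.SL.dne hD hw
  | step z z' c ρ f g _ hB hg hz hz' hfg ih =>
    refine ⟨?_, ?_⟩
    · filter_upwards [isOpen_ball.mem_nhds hz'] with w hw
      exact hg.differentiableAt (isOpen_ball.mem_nhds hw)
    · by_contra hcon
      rw [not_frequently] at hcon
      have h2 : deriv g =ᶠ[𝓝 z'] fun _ => (0 : ℂ) := hcon.mono fun w hw => not_not.1 hw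
      have h3 := Pool.Agent.E8helper32.SA.eqOn_convex (convex_ball c ρ) isOpen_ball
        (hg.deriv isOpen_ball) (differentiableOn_const (0 : ℂ)) hz' h2
      obtain ⟨w, hw1, hw2, hw3⟩ := (ih.2.and_eventually
        ((eventually_eventually_nhds.2 hfg).and (isOpen_ball.mem_nhds hz))).exists
      apply hw1
      have h4 : f =ᶠ[𝓝 w] g := hw2
      rw [h4.deriv_eq]
      exact h3 hw3

/-- Let `φ` be holomorphic and injective in `|w| < r`, where `r > 1`, and let (S) have a nontrivial
solution on `Ω = φ(D)` for some `lam > 0`. If `ψ (φ w) = χ w` for `w` near a point `z0` of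
`|w| < r`, where `χ` is meromorphic in the plane, not constant near `z0`, and `ψ` is holomorphic off
a closed countable set, unbounded near each point of this set, and has at most countably many
singular values in the plane, then `Ω` is a disc. If `Ω` is not a disc, then every branch `g` of `φ`
which satisfies `ψ ∘ g = χ` with `χ` meromorphic in a disc in `|w| > 1`, not constant, and `ψ` as
above, extends to this disc. -/
theorem result (φ : ℂ → ℂ) (r : ℝ) (hr : 1 < r) (hφ : DifferentiableOn ℂ φ (ball 0 r))
    (hinj : InjOn φ (ball 0 r)) (lam : ℝ) (hlam : 0 < lam) (hS : Solvable (φ '' ball 0 1) lam) :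
    (∀ (V : Set ℂ) (ψ χ : ℂ → ℂ) (z0 : ℂ), CountablySingular V ψ → (∀ z, MeromorphicAt χ z) →
      z0 ∈ ball (0 : ℂ) r → (¬ ∃ a, ∀ᶠ w in 𝓝[≠] z0, χ w = a) →
      (∀ᶠ w in 𝓝 z0, φ w ∈ V ∧ ψ (φ w) = χ w) → IsDisc (φ '' ball 0 1)) ∧
    (¬ IsDisc (φ '' ball 0 1) → RelatedBranchesExtend φ r) := by
  have hD : Pool.Agent.E8helper32.SL.D0 φ r := ⟨hr, hφ, hinj⟩
  obtain ⟨hBU, -, h3⟩ := BranchSingularities.result φ r hr hφ hinj lam hlam hS
  have hVG := Pool.Agent.E8helper32.SL.all_VG0 hD hlam hS
  refine ⟨?_, fun hnd => ?_⟩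
  · intro V ψ χ z0 hψ hχ hz0 hχn hev
    by_contra hnd
    obtain ⟨hNF, -, -⟩ := h3 hnd
    obtain ⟨Φ, hΦ, hΦφ⟩ := Pool.Agent.E8helper32.SQ.glob_mero Pool.Agent.E8helper36.SQ.iso
      Pool.Agent.E8helper36.SQ.conn Pool.Agent.E8helper36.SQ.cnt Pool.Agent.E8helper50.SQ.grow
      Pool.Agent.E8helper66.SQ.punc Pool.Agent.E8helper63.SQ.coord2 Pool.Agent.E8helper63.SQ.dich
      hD hlam hBU hNF hVG hψ.isOpen hψ.countable hψ.differentiableOn hψ.unbounded hψ.singular hχ
      hz0 hχn (hev.mono fun w hw _ => hw.2)
    exact Pool.Agent.E8helper32.SL.not_entire hD hlam hS hnd hΦ hΦφ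
  · obtain ⟨hNF, -, -⟩ := h3 hnd
    intro c ρ V ψ χ z g hB hψ hχ hz hg hχn hev
    obtain ⟨h4, h5⟩ := branch_nc hD hg
    exact Pool.Agent.E8helper32.SQ.loc_mero Pool.Agent.E8helper36.SQ.iso
      Pool.Agent.E8helper36.SQ.conn Pool.Agent.E8helper36.SQ.cnt Pool.Agent.E8helper50.SQ.grow
      Pool.Agent.E8helper66.SQ.punc Pool.Agent.E8helper63.SQ.coord2 Pool.Agent.E8helper63.SQ.dich
      hD hlam hBU hNF hVG hψ.isOpen hψ.countable hψ.differentiableOn hψ.unbounded hψ.singular hB
      hχ hz hχn (branch_to hg) ⟨h4, h5, hev.mono fun w hw _ _ => hw.2⟩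

end Pool.Agent.Results.MP_83fd13_an.FunctionalRelationsH32
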