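import Pool.Agent.E8helper32.SQ.Fin
import Pool.Agent.E8helper36.SQ.Icc
import Pool.Agent.E8helper36.SQ.Ell
import Pool.Agent.E8helper36.SQ.Fan
import Pool.Agent.E8helper38.SQ.Mob
import Pool.Agent.E8helper38.SQ.Ode
import Pool.Agent.E8helper63.SQ.Lim
import Pool.Agent.E8helper63.SQ.Strip

/-!
# Schiffer's conjecture when the Schwarzian derivative of the Riemann map has countably many
singularities

Let `Ω = φ(D)`, where `φ` is holomorphic and injective in a disc `|w| < r`, `r > 1`, and `D` is the
open unit disc. Suppose that (S) has a nontrivial solution on `Ω`. If the Schwarzian derivative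
`S(φ) = φ''' / φ' - (3/2) (φ'' / φ') ^ 2` extends to a holomorphic function in the complement of a
closed countable set (with arbitrary singularities: poles, essential singularities, accumulation
points of such singularities), then `Ω` is a disc. So the conjecture holds for all domains whose
Riemann map is, in `|w| < r`, a quotient of two solutions of a linear differential equation
`y'' = q y` with `q` holomorphic off a closed countable set (for example `q` rational: Schwarz
triangle functions, maps with any sort of multivaluedness given by a group of Möbius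
transformations), in particular (`S(φ)` is a rational expression in `φ'` or `φ'' / φ'` and their
derivatives) if `φ'` or `φ'' / φ'` has only isolated singularities in the plane, as for the formula
of Schwarz and Christoffel with arbitrary complex exponents.

Locally: let `Ω` not be a disc, let `B` be an open disc in `|w| > 1`, and let `g` be a branch of the
continuation of `φ` at a point `z` of `B`, the Schwarzian derivative of which extends
holomorphically to `B` minus a countable relatively closed set. Then `g` itself extends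
holomorphically to `B`.

The starting result `BranchSingularities` says that a branch has no isolated singularity. Here the
branches can have infinitely many values near a singular point.

The proof: by induction (Cantor and Bendixson) one considers an isolated singular point `w1`. In the
coordinate `w = w1 + exp τ` the branch is a function `G` on a half-plane and
`G (τ + 2 π i) = M (G τ)`, `M` a Möbius transformation. The identities for all branches, for open
paths, show that for the Schwarz function `T` in the same coordinate the first moment of `Y` is zero,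
`Y` a coordinate in which `M` is linear, if `M` is loxodromic, parabolic, or elliptic of infinite
order, and then that `T` is constant; if `M` is of finite order, then the Laplace method at points
provided by Wiman-Valiron theory excludes essential singularities. Affine `M` are done by the same
methods.
-/

set_option autoImplicit false

open MeasureTheory Metric Set Filter Topology ComplexConjugate

namespace Pool.Agent.Results.MP_83fd13_an.SchwarzianDerivativeH32

/-- The overdetermined problem (S) in the plane `ℂ`: `-Δu = lam u` in `Ω`, `∂u/∂n = 0` on `∂Ω`,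
`u = c` on `∂Ω` has a nontrivial weak solution `u` for some real constant `c`; `G` is the weak
gradient of `u`, and both boundary conditions are expressed by testing with functions that need not
vanish on `∂Ω`. -/
def Solvable (Ω : Set ℂ) (lam : ℝ) : Prop :=
  ∃ (c : ℝ) (u : ℂ → ℝ) (G : ℂ → ℂ),
    MemLp u 2 (volume.restrict Ω) ∧ MemLp G 2 (volume.restrict Ω) ∧
    (∀ φ : ℂ → ℝ, ContDiff ℝ 1 φ → HasCompactSupport φ → ∀ v : ℂ,
      ∫ x in Ω, (u x - c) * (fderiv ℝ φ x v) = - ∫ x in Ω, @inner ℝ ℂ _ (G x) v * φ x) ∧
    (∀ φ : ℂ → ℝ, ContDiff ℝ 1 φ → HasCompactSupport φ →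
      ∫ x in Ω, fderiv ℝ φ x (G x) = lam * ∫ x in Ω, u x * φ x) ∧
    ¬ (u =ᵐ[volume.restrict Ω] 0)

/-- `Ω` is an open disc -/
def IsDisc (Ω : Set ℂ) : Prop := ∃ (p : ℂ) (r0 : ℝ), 0 < r0 ∧ Ω = ball p r0

/-- The germs obtained from `φ` by analytic continuation along chains of discs in `|w| > 1`:
`Branch φ r z f` means that `f` near `z` is such a continuation of `φ`, which is given in
`|w| < r`. -/
inductive Branch (φ : ℂ → ℂ) (r : ℝ) : ℂ → (ℂ → ℂ) → Prop
  | base (z : ℂ) (h1 : 1 < ‖z‖) (h2 : ‖z‖ < r) : Branch φ r z φ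
  | step (z z' c : ℂ) (ρ : ℝ) (f g : ℂ → ℂ) (h : Branch φ r z f)
      (hB : ∀ w ∈ ball c ρ, 1 < ‖w‖) (hg : DifferentiableOn ℂ g (ball c ρ))
      (hz : z ∈ ball c ρ) (hz' : z' ∈ ball c ρ) (hfg : f =ᶠ[𝓝 z] g) : Branch φ r z' g

/-- the Schwarzian derivative -/
noncomputable def schwarzian (f : ℂ → ℂ) (w : ℂ) : ℂ :=
  deriv (deriv (deriv f)) w / deriv f w - 3 / 2 * (deriv (deriv f) w / deriv f w) ^ 2

/-- The local statement: let the open disc `B = {|w - c| < ρ}` lie in `|w| > 1`, let `U` be an open
set such that `B \ U` is countable, `Q` holomorphic in `B ∩ U`, and let `g` be a branch of `φ` at a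
point `z` of `B` such that the Schwarzian derivative of `g` is `Q` at all points of `U` near `z`
where `g' ≠ 0`. Then `g` extends holomorphically to `B`. -/
def BranchesExtend (φ : ℂ → ℂ) (r : ℝ) : Prop :=
  ∀ (c : ℂ) (ρ : ℝ) (U : Set ℂ) (Q : ℂ → ℂ) (z : ℂ) (g : ℂ → ℂ), (∀ w ∈ ball c ρ, 1 < ‖w‖) →
    IsOpen U → (ball c ρ \ U).Countable → DifferentiableOn ℂ Q (ball c ρ ∩ U) →
    z ∈ ball c ρ → Branch φ r z g →
    (∀ᶠ w in 𝓝 z, w ∈ U → deriv g w ≠ 0 → schwarzian g w = Q w) →
    ∃ E : ℂ → ℂ, DifferentiableOn ℂ E (ball c ρ) ∧ E =ᶠ[𝓝 z] g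

theorem branch_to {φ : ℂ → ℂ} {r : ℝ} {z : ℂ} {f : ℂ → ℂ} (h : Branch φ r z f) :
    BranchSingularities.Branch φ r z f := by
  induction h with
  | base z h1 h2 => exact BranchSingularities.Branch.base z h1 h2
  | step z z' c ρ f g _ hB hg hz hz' hfg ih =>
    exact BranchSingularities.Branch.step z z' c ρ f g ih hB hg hz hz' hfg

/-- branches are not constant -/
theorem branch_nc {φ : ℂ → ℂ} {r : ℝ} (hD : Pool.Agent.E8helper32.SL.D0 φ r) {z : ℂ} {f : ℂ → ℂ}
    (h : Branch φ r z f) : (∀ᶠ w in 𝓝 z, DifferentiableAt ℂ f w) ∧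
      ∃ᶠ w in 𝓝 z, deriv f w ≠ 0 := by
  induction h with
  | base z h1 h2 =>
    have hz : z ∈ ball (0 : ℂ) r := mem_ball_zero_iff.2 h2
    refine ⟨?_, Eventually.frequently ?_⟩
    · filter_upwards [isOpen_ball.mem_nhds hz] with w hw
      exact hD.hφ.differentiableAt (isOpen_ball.mem_nhds hw)
    · filter_upwards [isOpen_ball.mem_nhds hz] with w hw
      exact Pool.Agent.E8helper32.SL.dne hD hw
  | step z z' c ρ f g _ hB hg hz hz' hfg ih =>
    refine ⟨?_, ?_⟩
    · filter_upwards [isOpen_ball.mem_nhds hz'] with w hw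
      exact hg.differentiableAt (isOpen_ball.mem_nhds hw)
    · by_contra hcon
      rw [not_frequently] at hcon
      have h2 : deriv g =ᶠ[𝓝 z'] fun _ => (0 : ℂ) := hcon.mono fun w hw => not_not.1 hw
      have h3 := Pool.Agent.E8helper32.SA.eqOn_convex (convex_ball c ρ) isOpen_ball
        (hg.deriv isOpen_ball) (differentiableOn_const (0 : ℂ)) hz' h2
      obtain ⟨w, hw1, hw2, hw3⟩ := (ih.2.and_eventually
        ((eventually_eventually_nhds.2 hfg).and (isOpen_ball.mem_nhds hz))).exists
      apply hw1
      have h4 : f =ᶠ[𝓝 w] g := hw2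
      rw [h4.deriv_eq]
      exact h3 hw3

/-- Let `φ` be holomorphic and injective in `|w| < r`, where `r > 1`, and let (S) have a nontrivial
solution on `Ω = φ(D)` for some `lam > 0`. If there are a closed countable set `A` and a function
`Q`, holomorphic in the complement of `A`, which is equal to the Schwarzian derivative of `φ` in
`{|w| < r} \ A`, then `Ω` is a disc. If `Ω` is not a disc, then every branch of `φ` the Schwarzian
derivative of which extends to a disc minus a countable relatively closed set extends to this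
disc. -/
theorem result (φ : ℂ → ℂ) (r : ℝ) (hr : 1 < r) (hφ : DifferentiableOn ℂ φ (ball 0 r))
    (hinj : InjOn φ (ball 0 r)) (lam : ℝ) (hlam : 0 < lam) (hS : Solvable (φ '' ball 0 1) lam) :
    (∀ (A : Set ℂ) (Q : ℂ → ℂ), IsClosed A → A.Countable → DifferentiableOn ℂ Q Aᶜ →
      (∀ w ∈ ball (0 : ℂ) r \ A, schwarzian φ w = Q w) → IsDisc (φ '' ball 0 1)) ∧
    (¬ IsDisc (φ '' ball 0 1) → BranchesExtend φ r) := by
  have hD : Pool.Agent.E8helper32.SL.D0 φ r := ⟨hr, hφ, hinj⟩
  obtain ⟨hBU, -, h3⟩ := BranchSingularities.result φ r hr hφ hinj lam hlam hS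
  have hVG := Pool.Agent.E8helper32.SL.all_VG0 hD hlam hS
  have hLIM := Pool.Agent.E8helper63.SQ.t_LIM
  have hFAN := Pool.Agent.E8helper36.SQ.fan hLIM
  refine ⟨?_, fun hnd => ?_⟩
  · intro A Q hAc hA hQ hQφ
    by_contra hnd
    obtain ⟨hNF, -, -⟩ := h3 hnd
    obtain ⟨Φ, hΦ, hΦφ⟩ := Pool.Agent.E8helper32.SQ.glob_sch Pool.Agent.E8helper36.SQ.iso
      Pool.Agent.E8helper36.SQ.conn Pool.Agent.E8helper36.SQ.cnt Pool.Agent.E8helper38.SQ.mob
      Pool.Agent.E8helper38.SQ.ode hLIM hFAN Pool.Agent.E8helper63.SQ.t_STRIP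
      Pool.Agent.E8helper36.SQ.ell hD hlam hBU hNF hVG (U := Aᶜ) (Q := Q) hAc.isOpen_compl
      (by rwa [compl_compl]) hQ fun w hw hwA => hQφ w ⟨hw, hwA⟩
    exact Pool.Agent.E8helper32.SL.not_entire hD hlam hS hnd hΦ hΦφ
  · obtain ⟨hNF, -, -⟩ := h3 hnd
    intro c ρ U Q z g hB hU hA hQ hz hg hev
    obtain ⟨h4, h5⟩ := branch_nc hD hg
    exact Pool.Agent.E8helper32.SQ.loc_sch Pool.Agent.E8helper36.SQ.iso
      Pool.Agent.E8helper36.SQ.conn Pool.Agent.E8helper36.SQ.cnt Pool.Agent.E8helper38.SQ.mob
      Pool.Agent.E8helper38.SQ.ode hLIM hFAN Pool.Agent.E8helper63.SQ.t_STRIP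
      Pool.Agent.E8helper36.SQ.ell hD hlam hBU hNF hVG hB hU hA hQ hz (branch_to hg)
      ⟨h4, h5, hev⟩

end Pool.Agent.Results.MP_83fd13_an.SchwarzianDerivativeH32
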