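import Pool.Agent.E8helper4.FV2.Fin2

/-!
# A convex Schiffer domain other than a disc has at least six vertices

Let `Ω = φ(D)`, where `φ` is holomorphic and injective in a disc `|w| < r`, `r > 1`, and `D` is the
open unit disc (by a theorem of Williams every domain on which problem (S) has a solution is of
this kind), and let (S) have a nontrivial solution on `Ω` for some `lam > 0`. If the curvature of the
boundary is nonnegative, then `Ω` is a disc or the derivative of the curvature changes sign at
least six times. So Schiffer's conjecture is true for all convex domains with fewer than six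
vertices, such as all ovals with exactly four vertices.

The proof: the function `S(z) = conj z` on the boundary and its `z`-primitives extend to
holomorphic functions plus double integrals with Bessel type kernels; complex conjugation and
exchange of the order of integration show `∮ conj(τ)³ ds = 0` and `∮ z conj(τ)³ ds = 0` (`τ` the unit
tangent) for every Schiffer domain. In the convex case there is a centre `b` (on two double normals)
for which `f = (z - b) · τ` vanishes at two pairs of points with opposite tangents, with tangent
angles `θ1, θ2, θ1 + π, θ2 + π`, and `∮ f sin (θ - θ1) sin (θ - θ2) ds = 0`; a Sturm type argument for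
the equation satisfied by `f` gives six sign changes of the derivative of the curvature.
-/

set_option autoImplicit false

open Complex Metric Set
open Pool.Agent.Results.MP_83fd13_an.BranchSingularities (Solvable)

namespace Pool.Agent.Results.MP_83fd13_an.SixVerticesH4

/-- the curvature of the boundary curve `t ↦ φ(e^{it})` of `Ω = φ(D)` -/
noncomputable def curvature (φ : ℂ → ℂ) (t : ℝ) : ℝ :=
  (1 + exp ((t : ℂ) * I) * deriv (deriv φ) (exp ((t : ℂ) * I)) /
    deriv φ (exp ((t : ℂ) * I))).re / ‖deriv φ (exp ((t : ℂ) * I))‖

/-- A convex Schiffer domain is a disc, or the derivative of its curvature is alternately negative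
and positive at six points in cyclic order. -/
theorem result (φ : ℂ → ℂ) (r : ℝ) (hr : 1 < r) (hφ : DifferentiableOn ℂ φ (ball 0 r))
    (hinj : InjOn φ (ball 0 r)) (lam : ℝ) (hlam : 0 < lam) (hS : Solvable (φ '' ball 0 1) lam)
    (hc : ∀ t : ℝ, 0 ≤ curvature φ t) :
    (∃ (p : ℂ) (R : ℝ), 0 < R ∧ φ '' ball 0 1 = ball p R) ∨
    ∃ t : Fin 6 → ℝ, StrictMono t ∧ t 5 < t 0 + 2 * Real.pi ∧
      ∀ i : Fin 6, 0 < (-1 : ℝ) ^ ((i : ℕ) + 1) * deriv (curvature φ) (t i) := by
  rcases (Pool.Agent.E8helper4.FV.t_fin7 φ r lam hr hφ hinj hlam hS).2 hc with h | ⟨t, h1, h2, h3⟩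
  · exact Or.inl h
  · refine Or.inr ⟨t, h1, h2, fun i => ?_⟩
    have := h3 i
    have e : (-1 : ℝ) ^ ((i : ℕ) + 1) * deriv (curvature φ) (t i) =
        (-1 : ℝ) ^ (i : ℕ) * -deriv (Pool.Agent.E8helper4.FV.kap φ) (t i) := by
      show (-1 : ℝ) ^ ((i : ℕ) + 1) * deriv (Pool.Agent.E8helper4.FV.kap φ) (t i) = _
      rw [pow_succ]; ring
    rw [e]; exact this

end Pool.Agent.Results.MP_83fd13_an.SixVerticesH4
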